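import Pool.Agent.Run7.h550.SMM.Main

/-!
# Degree-one vertices do not prevent percolation of stable multi-matchings

There is a probability distribution `ν` on `{2, 3, …}` such that in every dimension `d ≥ 1` and for
every `p < 1` the stable multi-matching of the Poisson process with i.i.d. degrees of law
`p δ₁ + (1 - p) ν` has an infinite component, almost surely. So the answer to Q1 is negative, in
every dimension.

The proof uses a distribution `ν` with a heavy tail: the points with very many stubs in successive
annuli with radii `4 ^ k` and `4 ^ (k + 1)` are linked to each other.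
-/

set_option autoImplicit false

namespace Pool.Agent.Results.MP_bae357_pr.HeavyTailsPercolate

open MeasureTheory ProbabilityTheory
open scoped ENNReal
open Pool.Agent.Helper712_LP (E)
open Run7.h550.SMM (MarkedPoisson IsStable Percolates)

theorem result : ∃ ν : Measure ℕ, IsProbabilityMeasure ν ∧ ν {n | n < 2} = 0 ∧
    ∀ d : ℕ, 1 ≤ d → ∀ p : ℝ≥0∞, p < 1 →
      (∃ (Ω : Type) (_ : MeasurableSpace Ω) (P : Measure Ω) (_ : IsProbabilityMeasure P)
        (x : ℕ → Ω → E d) (D : ℕ → Ω → ℕ),
        MarkedPoisson P (p • Measure.dirac 1 + (1 - p) • ν) x D) ∧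
      ∀ (Ω : Type) [MeasurableSpace Ω] (P : Measure Ω) [IsProbabilityMeasure P]
        (x : ℕ → Ω → E d) (D : ℕ → Ω → ℕ),
        MarkedPoisson P (p • Measure.dirac 1 + (1 - p) • ν) x D →
          ∀ᵐ ω ∂P, (∃ G, IsStable (fun i => x i ω) (fun i => D i ω) G) ∧
            ∀ G, IsStable (fun i => x i ω) (fun i => D i ω) G → Percolates G := by
  refine ⟨Run7.h550.SMM.nu, inferInstance, Run7.h550.SMM.nu_small, fun d hd p hp => ⟨?_, ?_⟩⟩
  · have := Run7.h550.SMM.isProb_mix hp.le
    exact Run7.h550.SMM.exists_marked hd (Run7.h550.SMM.mix p)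
  · intro Ω _ P _ x D hx
    filter_upwards [Run7.h550.SMM.ae_percolates hd hp hx] with ω hω
    exact ⟨hω.1, fun G hG => (hω.2 G hG).2⟩

end Pool.Agent.Results.MP_bae357_pr.HeavyTailsPercolate
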